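import Mathlib

/-!
# The rational group algebra of a generic countable group is semiprimitive

A group `G` is called rich here if for every finite subset `s` there are `t, w ∈ G` which commute
with all elements of `s` such that `t² w = w t³` and `t` does not commute with `w⁻¹ t w`. Then `t`
has infinite order, and no power `tⁿ`, `n ≠ 0`, lies in the subgroup generated by `s`.

If `a ∈ J(ℚ[G])` and `s` is the support of `a`, then `1 - t a` is invertible, which forces `a` to be
nilpotent. So `J(ℚ[G])` is nil, and therefore zero. Rich groups are generic, since richness is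
a countable intersection of open conditions, each of which can be achieved by passing
from `G` to `G × K` for a suitable countable group `K` of permutations of `ℚ`.
-/

set_option autoImplicit false

namespace Pool.Agent.Results.MP_146d92_al.Generic

/-! ### Algebra -/

section algebra

variable {G : Type*} [Group G]

/-- the relations satisfied by `t`, `w` and `u = w⁻¹ t w` -/
def Rel (t w u : G) : Prop := t * (t * w) = w * (t * (t * t)) ∧ w * u = t * w ∧ t * u ≠ u * t

lemma Rel.conj {t w u : G} (h : Rel t w u) : u = w⁻¹ * t * w := by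
  rw [mul_assoc, ← h.2.1, inv_mul_cancel_left]

lemma Rel.conj_pow {t w u : G} (h : Rel t w u) (n : ℤ) : w⁻¹ * t ^ (2 * n) * w = t ^ (3 * n) := by
  have h1 : w⁻¹ * t ^ 2 * w = t ^ 3 := by
    have := h.1
    calc w⁻¹ * t ^ 2 * w = w⁻¹ * (t * (t * w)) := by rw [pow_two]; group
      _ = t ^ 3 := by rw [this, inv_mul_cancel_left, pow_succ, pow_two]; group
  have h2 : w⁻¹ * t ^ (2 * n) * w = (w⁻¹ * t ^ 2 * w) ^ n := by
    have := conj_zpow (a := w⁻¹) (b := t ^ 2) (i := n)
    rw [inv_inv] at this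
    rw [this, zpow_mul]
    norm_cast
  rw [h2, h1, zpow_mul]
  norm_cast

lemma Rel.sq {t w u : G} (h : Rel t w u) : u ^ 2 = t ^ 3 := by
  have := h.conj_pow 1
  rw [mul_one, mul_one] at this
  rw [h.conj]
  have h2 := _root_.conj_pow (a := w⁻¹) (b := t) (i := 2)
  rw [inv_inv] at h2
  rw [h2]
  exact_mod_cast this

lemma Rel.orderOf_eq_zero {t w u : G} (h : Rel t w u) : orderOf t = 0 := by
  by_contra hn
  have hpos : 0 < orderOf t := Nat.pos_of_ne_zero hn
  have hu : orderOf u = orderOf t := by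
    rw [h.conj]
    have : w⁻¹ * t * w = MulAut.conj w⁻¹ t := by simp
    rw [this]
    exact orderOf_injective (MulAut.conj w⁻¹).toMonoidHom (MulAut.conj w⁻¹).injective t
  have h1 : orderOf (u ^ 2) = orderOf t / (orderOf t).gcd 2 := by
    rw [orderOf_pow' u (by norm_num), hu]
  have h2 : orderOf (t ^ 3) = orderOf t / (orderOf t).gcd 3 := orderOf_pow' t (by norm_num)
  rw [h.sq, h2] at h1
  have h3 : (orderOf t).gcd 3 = (orderOf t).gcd 2 := by
    have d2 := Nat.gcd_dvd_left (orderOf t) 2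
    have d3 := Nat.gcd_dvd_left (orderOf t) 3
    obtain ⟨x, hx⟩ := d2
    obtain ⟨y, hy⟩ := d3
    have p2 : 0 < (orderOf t).gcd 2 := Nat.gcd_pos_of_pos_left _ hpos
    have p3 : 0 < (orderOf t).gcd 3 := Nat.gcd_pos_of_pos_left _ hpos
    have e2 : orderOf t / (orderOf t).gcd 2 = x := by
      nth_rw 1 [hx]
      exact Nat.mul_div_cancel_left x p2
    have e3 : orderOf t / (orderOf t).gcd 3 = y := by
      nth_rw 1 [hy]
      exact Nat.mul_div_cancel_left y p3
    rw [e2, e3] at h1
    subst h1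
    have hy0 : 0 < y := by
      rcases Nat.eq_zero_or_pos y with h0 | h0
      · rw [h0, mul_zero] at hy
        omega
      · exact h0
    exact Nat.eq_of_mul_eq_mul_right hy0 (hy.symm.trans hx)
  have h4 : (orderOf t).gcd 2 = 1 := by
    have e2 : (orderOf t).gcd 2 ∣ 2 := Nat.gcd_dvd_right _ _
    have e3 : (orderOf t).gcd 2 ∣ 3 := h3 ▸ Nat.gcd_dvd_right _ _
    have := Nat.dvd_sub e3 e2
    exact Nat.dvd_one.1 this
  have hodd : Odd (orderOf t) := by
    rw [← Nat.coprime_two_right]
    exact h4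
  obtain ⟨k, hk⟩ := hodd
  have h5 : u = t ^ (3 * (k + 1)) := by
    rw [pow_mul, ← h.sq, ← pow_mul]
    have : 2 * (k + 1) = orderOf u + 1 := by rw [hu, hk]; ring
    rw [this, pow_succ, pow_orderOf_eq_one, one_mul]
  apply h.2.2
  rw [h5]
  exact (Commute.refl t).pow_right _

lemma Rel.notMem {t w u : G} (h : Rel t w u) {s : Set G} (hw : ∀ g ∈ s, Commute w g) {n : ℤ}
    (hn : t ^ n ∈ Subgroup.closure s) : n = 0 := by
  have h1 : ∀ g ∈ Subgroup.closure s, Commute w g := by
    intro g hg
    induction hg using Subgroup.closure_induction with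
    | mem g hg => exact hw g hg
    | one => exact Commute.one_right w
    | mul a b _ _ ha hb => exact ha.mul_right hb
    | inv a _ ha => exact ha.inv_right
  have h2 : Commute w (t ^ n) := h1 _ hn
  have h3 := h.conj_pow n
  have h4 : w⁻¹ * t ^ (2 * n) * w = t ^ (2 * n) := by
    have : Commute w (t ^ (2 * n)) := by
      rw [two_mul, zpow_add]
      exact h2.mul_right h2
    rw [mul_assoc, ← this.eq, inv_mul_cancel_left]
  rw [h4] at h3
  have h5 : t ^ n = 1 := by
    have : t ^ (3 * n) = t ^ (2 * n) * t ^ n := by rw [← zpow_add]; congr 1; ring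
    rw [this] at h3
    exact (mul_eq_left.1 h3.symm)
  by_contra hcon
  have h6 : IsOfFinOrder t := isOfFinOrder_iff_zpow_eq_one.2 ⟨n, hcon, h5⟩
  exact absurd h.orderOf_eq_zero (orderOf_ne_zero_iff.2 h6)

/-- the rich groups -/
def Rich (G : Type*) [Group G] : Prop :=
  ∀ s : Finset G, ∃ t w u : G, (∀ g ∈ s, t * g = g * t ∧ w * g = g * w) ∧ Rel t w u

open MonoidAlgebra

/-- `x` is supported on `A` -/
def Supp (A : Set G) (x : MonoidAlgebra ℚ G) : Prop := ∀ g, x.coeff g ≠ 0 → g ∈ A

lemma coeff_mul_eq_zero (x y : MonoidAlgebra ℚ G) (g : G)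
    (h : ∀ a b, a * b = g → x.coeff a = 0 ∨ y.coeff b = 0) : (x * y).coeff g = 0 := by
  classical
  rw [MonoidAlgebra.coeff_mul]
  refine Finset.sum_eq_zero fun a _ => Finset.sum_eq_zero fun b _ => ?_
  dsimp only
  split_ifs with hab
  · rcases h a b hab with h1 | h1
    · rw [h1, zero_mul]
    · rw [h1, mul_zero]
  · rfl

lemma supp_mul {A B C : Set G} {x y : MonoidAlgebra ℚ G} (hx : Supp A x) (hy : Supp B y)
    (h : ∀ a ∈ A, ∀ b ∈ B, a * b ∈ C) : Supp C (x * y) := by
  intro g hg
  by_contra hcon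
  apply hg
  apply coeff_mul_eq_zero
  intro a b hab
  by_contra hor
  rw [not_or] at hor
  exact hcon (hab ▸ h a (hx a hor.1) b (hy b hor.2))

/-- the coset `t ^ n H` -/
def coset (t : G) (H : Subgroup G) (n : ℤ) : Set G := {g | t ^ (-n) * g ∈ H}

lemma supp_pow {H : Subgroup G} {a : MonoidAlgebra ℚ G} (ha : Supp H a) {t : G}
    (ht : ∀ g ∈ H, Commute t g) (n : ℕ) : Supp (coset t H n) ((single t 1 * a) ^ n) := by
  classical
  have hone : Supp (coset t H 0) (1 : MonoidAlgebra ℚ G) := by
    intro g hg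
    rw [MonoidAlgebra.one_def, MonoidAlgebra.coeff_single, Finsupp.single_apply] at hg
    have : (1 : G) = g := by
      by_contra hcon
      rw [if_neg hcon] at hg
      exact hg rfl
    rw [← this]
    change t ^ (-0 : ℤ) * 1 ∈ H
    rw [neg_zero, zpow_zero, one_mul]
    exact H.one_mem
  have hta : Supp (coset t H 1) (single t 1 * a) := by
    have h1 : Supp {t} (single t (1 : ℚ)) := by
      intro g hg
      rw [MonoidAlgebra.coeff_single, Finsupp.single_apply] at hg
      by_contra hcon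
      rw [if_neg (fun e => hcon (by rw [← e]; rfl))] at hg
      exact hg rfl
    refine supp_mul h1 ha ?_
    rintro x hx y hy
    rw [Set.mem_singleton_iff.1 hx]
    change t ^ (-1 : ℤ) * (t * y) ∈ H
    rw [zpow_neg_one, inv_mul_cancel_left]
    exact hy
  induction n with
  | zero => rw [pow_zero]; exact hone
  | succ n ih =>
    rw [pow_succ]
    refine supp_mul ih hta ?_
    intro x hx y hy
    have hx' : t ^ (-(n : ℤ)) * x ∈ H := hx
    have hy' : t ^ (-1 : ℤ) * y ∈ H := hy
    change t ^ (-((n + 1 : ℕ) : ℤ)) * (x * y) ∈ H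
    have h2 : Commute (t ^ (-1 : ℤ)) (t ^ (-(n : ℤ)) * x) := ((ht _ hx').zpow_left _)
    have h3 : t ^ (-((n + 1 : ℕ) : ℤ)) * (x * y) =
        (t ^ (-(n : ℤ)) * x) * (t ^ (-1 : ℤ) * y) := by
      rw [← mul_assoc (t ^ (-(n : ℤ)) * x), ← h2.eq, ← mul_assoc (t ^ (-1 : ℤ)), ← zpow_add,
        ← mul_assoc]
      congr 2
      congr 1
      push_cast
      ring
    rw [h3]
    exact H.mul_mem hx' hy'

lemma mem_jacobson_iff' {R : Type*} [Ring R] (x : R) :
    x ∈ Ring.jacobson R ↔ ∀ y, ∃ z, z * (1 + y * x) = 1 := by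
  rw [← Ideal.jacobson_bot, Ideal.mem_jacobson_iff]
  refine forall_congr' fun y => exists_congr fun z => ?_
  rw [Ideal.mem_bot, sub_eq_zero, mul_add, mul_one, mul_assoc, add_comm]

/-- in the group algebra of a rich group the Jacobson radical is nil -/
lemma nil_of_rich (hG : Rich G) {a : MonoidAlgebra ℚ G} (ha : a ∈ Ring.jacobson _) :
    IsNilpotent a := by
  classical
  obtain ⟨t, w, u, hcom, hrel⟩ := hG a.coeff.support
  let H : Subgroup G := Subgroup.closure (a.coeff.support : Set G)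
  have haH : Supp H a := fun g hg => Subgroup.subset_closure (Finsupp.mem_support_iff.2 hg)
  have htH : ∀ g ∈ H, Commute t g := by
    intro g hg
    induction hg using Subgroup.closure_induction with
    | mem g hg => exact (hcom g hg).1
    | one => exact Commute.one_right t
    | mul a b _ _ ha hb => exact ha.mul_right hb
    | inv a _ ha => exact ha.inv_right
  have hnm : ∀ n : ℤ, t ^ n ∈ H → n = 0 := fun n hn => hrel.notMem (fun g hg => (hcom g hg).2) hn
  -- cosets are disjoint
  have hdisj : ∀ (m n : ℤ) (g : G), g ∈ coset t H m → g ∈ coset t H n → m = n := by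
    intro m n g h1 h2
    have h1' : t ^ (-m) * g ∈ H := h1
    have h2' : t ^ (-n) * g ∈ H := h2
    have h3 : t ^ (n - m) ∈ H := by
      have := H.mul_mem h1' (H.inv_mem h2')
      rw [mul_inv_rev, ← zpow_neg, neg_neg, mul_assoc, mul_inv_cancel_left, ← zpow_add] at this
      rwa [sub_eq_neg_add]
    have := hnm _ h3
    omega
  obtain ⟨z, hz⟩ := (mem_jacobson_iff' a).1 ha (-single t 1)
  obtain ⟨b, hb⟩ : ∃ b, b = single t (1 : ℚ) * a := ⟨_, rfl⟩
  have hz' : z * (1 - b) = 1 := by
    have : 1 - b = 1 + -single t 1 * a := by rw [hb, neg_mul, sub_eq_add_neg]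
    rw [this]
    exact hz
  -- the support of `z` meets only finitely many cosets
  have hfin : {n : ℤ | ∃ g ∈ z.coeff.support, g ∈ coset t H n}.Finite := by
    have : {n : ℤ | ∃ g ∈ z.coeff.support, g ∈ coset t H n} =
        ⋃ g ∈ z.coeff.support, {n : ℤ | g ∈ coset t H n} := by
      ext n
      simp
    rw [this]
    refine Set.Finite.biUnion (Finset.finite_toSet _) fun g _ => ?_
    exact Set.Subsingleton.finite fun m hm n hn => hdisj m n g hm hn
  obtain ⟨B, hB⟩ := hfin.bddAbove
  obtain ⟨B', hB'⟩ := hfin.bddBelow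
  -- choose `n` and `N`
  obtain ⟨n, hn⟩ : ∃ n : ℕ, n = B.natAbs + 1 := ⟨_, rfl⟩
  obtain ⟨N, hN⟩ : ∃ N : ℕ, N = n + B'.natAbs + 1 := ⟨_, rfl⟩
  have hn1 : ∀ g ∈ coset t H n, z.coeff g = 0 := by
    intro g hg
    by_contra hcon
    have := hB ⟨g, Finsupp.mem_support_iff.2 hcon, hg⟩
    omega
  have hn2 : ∀ g ∈ coset t H ((n : ℤ) - N), z.coeff g = 0 := by
    intro g hg
    by_contra hcon
    have := hB' ⟨g, Finsupp.mem_support_iff.2 hcon, hg⟩
    omega
  have hgeom : z = ∑ j ∈ Finset.range N, b ^ j + z * b ^ N := by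
    have h1 : (1 - b) * ∑ j ∈ Finset.range N, b ^ j = 1 - b ^ N := mul_neg_geom_sum b N
    have h2 : z * (1 - b ^ N) = ∑ j ∈ Finset.range N, b ^ j := by
      rw [← h1, ← mul_assoc, hz', one_mul]
    rw [← h2]
    noncomm_ring
  have hbn : b ^ n = 0 := by
    apply MonoidAlgebra.coeff_injective
    ext g
    rw [MonoidAlgebra.coeff_zero, Finsupp.zero_apply]
    by_cases hg : g ∈ coset t H n
    · have h1 := congrArg (fun x => MonoidAlgebra.coeff x g) hgeom
      simp only [MonoidAlgebra.coeff_add, Finsupp.add_apply, MonoidAlgebra.coeff_sum,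
        Finsupp.finsetSum_apply] at h1
      rw [hn1 g hg] at h1
      rw [Finset.sum_eq_single n] at h1
      · rw [coeff_mul_eq_zero z (b ^ N) g, add_zero] at h1
        · exact h1.symm
        · intro x y hxy
          by_contra hcon
          rw [not_or] at hcon
          have hy : t ^ (-(N : ℤ)) * y ∈ H := supp_pow haH htH N y (hb ▸ hcon.2)
          apply hcon.1
          apply hn2
          have hg' : t ^ (-(n : ℤ)) * g ∈ H := hg
          change t ^ (-((n : ℤ) - N)) * x ∈ H
          have h3 := H.mul_mem hg' (H.inv_mem hy)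
          have h4 : t ^ (-(n : ℤ)) * g * (t ^ (-(N : ℤ)) * y)⁻¹ = t ^ (-((n : ℤ) - N)) * x := by
            have hy2 : Commute (t ^ (-(N : ℤ))) (t ^ (-(N : ℤ)) * y)⁻¹ :=
              ((htH _ (H.inv_mem hy)).zpow_left _)
            have hx : x = g * y⁻¹ := by rw [← hxy, mul_inv_cancel_right]
            have h5 : y⁻¹ = t ^ (-(N : ℤ)) * (t ^ (-(N : ℤ)) * y)⁻¹ * t ^ (N : ℤ) *
                t ^ (-(N : ℤ)) := by
              rw [hy2.eq, mul_inv_rev]
              group
            have h6 : Commute (t ^ (N : ℤ)) (t ^ (-(n : ℤ)) * g) := (htH _ hg').zpow_left _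
            rw [hx]
            have h7 : t ^ (-((n : ℤ) - N)) * (g * y⁻¹) =
                (t ^ (N : ℤ) * (t ^ (-(n : ℤ)) * g)) * y⁻¹ := by
              rw [← mul_assoc, ← mul_assoc, ← zpow_add]
              congr 3
              ring
            rw [h7, h6.eq, mul_inv_rev, ← zpow_neg, neg_neg]
            have h8 : Commute (t ^ (N : ℤ)) y⁻¹ := by
              have h9 : Commute (t ^ (N : ℤ)) (t ^ (-(N : ℤ)) * y) := (htH _ hy).zpow_left _
              have h10 : Commute (t ^ (N : ℤ)) y := by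
                have h11 : Commute (t ^ (N : ℤ)) (t ^ (N : ℤ) * (t ^ (-(N : ℤ)) * y)) :=
                  (Commute.refl _).mul_right h9
                rwa [← mul_assoc, ← zpow_add, add_neg_cancel, zpow_zero, one_mul] at h11
              exact h10.inv_right
            rw [mul_assoc _ (t ^ (N : ℤ)), h8.eq]
          rwa [h4] at h3
      · intro j _ hjn
        by_contra hcon
        exact hjn (by exact_mod_cast hdisj _ _ g (supp_pow haH htH j g (hb ▸ hcon)) hg)
      · intro h2
        exact absurd (Finset.mem_range.2 (by omega)) h2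
    · by_contra hcon
      exact hg (supp_pow haH htH n g (hb ▸ hcon))
  have hcomm : Commute (single t (1 : ℚ)) a := by
    apply MonoidAlgebra.coeff_injective
    ext g
    have h1 : (single t (1 : ℚ) * a).coeff g = a.coeff (t⁻¹ * g) := by
      rw [MonoidAlgebra.coeff_single_mul_eq_mul_coeff (t⁻¹ * g), one_mul]
      intro m _
      rw [eq_inv_mul_iff_mul_eq]
    have h2 : (a * single t (1 : ℚ)).coeff g = a.coeff (g * t⁻¹) := by
      rw [MonoidAlgebra.coeff_mul_single_eq_coeff_mul (g * t⁻¹), mul_one]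
      intro m _
      rw [eq_mul_inv_iff_mul_eq]
    change (single t (1 : ℚ) * a).coeff g = (a * single t (1 : ℚ)).coeff g
    rw [h1, h2]
    by_cases h3 : a.coeff (t⁻¹ * g) = 0
    · by_cases h4 : a.coeff (g * t⁻¹) = 0
      · rw [h3, h4]
      · have h5 : Commute t (g * t⁻¹) := htH _ (haH _ h4)
        have h6 : t⁻¹ * g = g * t⁻¹ := by
          have := h5.inv_left.eq
          calc t⁻¹ * g = t⁻¹ * (g * t⁻¹) * t := by group
            _ = g * t⁻¹ := by rw [this]; group
        rw [h6]
    · have h5 : Commute t (t⁻¹ * g) := htH _ (haH _ h3)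
      have h6 : t⁻¹ * g = g * t⁻¹ := by
        have := h5.inv_left.eq
        calc t⁻¹ * g = t * (t⁻¹ * (t⁻¹ * g)) := by group
          _ = g * t⁻¹ := by rw [this]; group
      rw [h6]
  refine ⟨n, ?_⟩
  rw [hb, hcomm.mul_pow, MonoidAlgebra.single_pow, one_pow] at hbn
  have h1 : single (t ^ n)⁻¹ (1 : ℚ) * (single (t ^ n) 1 * a ^ n) = a ^ n := by
    rw [← mul_assoc, MonoidAlgebra.single_mul_single, inv_mul_cancel, one_mul,
      ← MonoidAlgebra.one_def, one_mul]
  rw [← h1, hbn, mul_zero]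

/-- the adjoint: `g ↦ g⁻¹` -/
noncomputable def adj (x : MonoidAlgebra ℚ G) : MonoidAlgebra ℚ G :=
  ofCoeff (Finsupp.equivMapDomain (Equiv.inv G) x.coeff)

lemma adj_coeff (x : MonoidAlgebra ℚ G) (g : G) : (adj x).coeff g = x.coeff g⁻¹ := rfl

lemma adj_zero : adj (0 : MonoidAlgebra ℚ G) = 0 := by
  apply MonoidAlgebra.coeff_injective
  ext g
  rw [adj_coeff]
  rfl

lemma adj_add (x y : MonoidAlgebra ℚ G) : adj (x + y) = adj x + adj y := by
  apply MonoidAlgebra.coeff_injective
  ext g
  rfl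

lemma adj_adj (x : MonoidAlgebra ℚ G) : adj (adj x) = x := by
  apply MonoidAlgebra.coeff_injective
  ext g
  rw [adj_coeff, adj_coeff, inv_inv]

lemma adj_single (g : G) (r : ℚ) : adj (single g r) = single g⁻¹ r := by
  apply MonoidAlgebra.coeff_injective
  exact Finsupp.equivMapDomain_single (Equiv.inv G) g r

lemma adj_mul (x y : MonoidAlgebra ℚ G) : adj (x * y) = adj y * adj x := by
  induction x using MonoidAlgebra.induction_linear with
  | zero => rw [zero_mul, adj_zero, mul_zero]
  | add x x' hx hx' => rw [add_mul, adj_add, adj_add, mul_add, hx, hx']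
  | single g r =>
    induction y using MonoidAlgebra.induction_linear with
    | zero => rw [mul_zero, adj_zero, zero_mul]
    | add y y' hy hy' => rw [mul_add, adj_add, adj_add, add_mul, hy, hy']
    | single h q =>
      rw [single_mul_single, adj_single, adj_single, adj_single, single_mul_single, mul_inv_rev,
        mul_comm r q]

lemma adj_mul_self_ne_zero {x : MonoidAlgebra ℚ G} (hx : x ≠ 0) : adj x * x ≠ 0 := by
  classical
  obtain ⟨b, hb⟩ : ∃ b, x.coeff b ≠ 0 := by
    by_contra hcon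
    push Not at hcon
    apply hx
    apply MonoidAlgebra.coeff_injective
    ext g
    exact hcon g
  intro h0
  have h1 := congrArg (fun y => MonoidAlgebra.coeff y 1) h0
  simp only [MonoidAlgebra.coeff_zero, Finsupp.zero_apply] at h1
  rw [MonoidAlgebra.coeff_mul] at h1
  refine absurd h1 (ne_of_gt ?_)
  have hterm : ∀ a c : G, 0 ≤ (if a * c = 1 then (adj x).coeff a * x.coeff c else 0) := by
    intro a c
    split_ifs with hac
    · rw [adj_coeff, eq_inv_of_mul_eq_one_left hac, inv_inv]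
      exact mul_self_nonneg _
    · exact le_rfl
  refine Finset.sum_pos' (fun a _ => Finset.sum_nonneg fun c _ => hterm a c) ⟨b⁻¹, ?_, ?_⟩
  · rw [Finsupp.mem_support_iff, adj_coeff, inv_inv]
    exact hb
  · refine Finset.sum_pos' (fun c _ => hterm _ c) ⟨b, Finsupp.mem_support_iff.2 hb, ?_⟩
    dsimp only
    rw [if_pos (inv_mul_cancel b), adj_coeff, inv_inv]
    exact mul_self_pos.2 hb

/-- a nil ideal of the rational group algebra is zero -/
lemma eq_zero_of_nil (J : Ideal (MonoidAlgebra ℚ G)) (hJ : ∀ a ∈ J, IsNilpotent a)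
    {a : MonoidAlgebra ℚ G} (ha : a ∈ J) : a = 0 := by
  by_contra hcon
  let b := adj a * a
  have hb : b ∈ J := J.mul_mem_left _ ha
  have hself : adj b = b := by
    change adj (adj a * a) = adj a * a
    rw [adj_mul, adj_adj]
  have hpow : ∀ n : ℕ, b ^ (2 ^ n) ≠ 0 ∧ adj (b ^ (2 ^ n)) = b ^ (2 ^ n) := by
    intro n
    induction n with
    | zero => rw [pow_zero, pow_one]; exact ⟨adj_mul_self_ne_zero hcon, hself⟩
    | succ n ih =>
      have h1 : b ^ (2 ^ (n + 1)) = b ^ (2 ^ n) * b ^ (2 ^ n) := by rw [← pow_add]; congr 1; ring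
      rw [h1]
      constructor
      · have := adj_mul_self_ne_zero ih.1
        rwa [ih.2] at this
      · rw [adj_mul, ih.2]
  obtain ⟨n, hn⟩ := hJ b hb
  have h2 : n ≤ 2 ^ n := Nat.lt_two_pow_self.le
  exact (hpow n).1 (pow_eq_zero_of_le h2 hn)

theorem semiprimitive_of_rich (hG : Rich G) : Ring.jacobson (MonoidAlgebra ℚ G) = ⊥ := by
  rw [eq_bot_iff]
  intro a ha
  rw [Submodule.mem_bot]
  exact eq_zero_of_nil _ (fun b hb => nil_of_rich hG hb) ha

end algebra

/-! ### A countable group with the relations -/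

section example_group

/-- the translation by one -/
def tQ : Equiv.Perm ℚ := Equiv.addRight 1

/-- the permutation interchanging `3ℤ` and `3ℤ + 1` -/
noncomputable def sigmaFun (x : ℚ) : ℚ :=
  open Classical in
  if ∃ n : ℤ, x = 3 * n then x + 1 else if ∃ n : ℤ, x = 3 * n + 1 then x - 1 else x

lemma sigma_zero (n : ℤ) : sigmaFun (3 * n) = 3 * n + 1 := by
  rw [sigmaFun, if_pos ⟨n, rfl⟩]

lemma not_both {x : ℚ} {n : ℤ} (h : x = 3 * n + 1) : ¬ ∃ m : ℤ, x = 3 * m := by
  rintro ⟨m, hm⟩
  rw [h] at hm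
  have : (3 * n + 1 : ℤ) = 3 * m := by exact_mod_cast hm
  omega

lemma sigma_one (n : ℤ) : sigmaFun (3 * n + 1) = 3 * n := by
  rw [sigmaFun, if_neg (not_both rfl), if_pos ⟨n, rfl⟩]
  ring

lemma sigma_other {x : ℚ} (h1 : ¬ ∃ n : ℤ, x = 3 * n) (h2 : ¬ ∃ n : ℤ, x = 3 * n + 1) :
    sigmaFun x = x := by
  rw [sigmaFun, if_neg h1, if_neg h2]

lemma sigma_sigma (x : ℚ) : sigmaFun (sigmaFun x) = x := by
  by_cases h1 : ∃ n : ℤ, x = 3 * n
  · obtain ⟨n, rfl⟩ := h1
    rw [sigma_zero, sigma_one]
  · by_cases h2 : ∃ n : ℤ, x = 3 * n + 1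
    · obtain ⟨n, rfl⟩ := h2
      rw [sigma_one, sigma_zero]
    · rw [sigma_other h1 h2, sigma_other h1 h2]

lemma sigma_add (x : ℚ) : sigmaFun (x + 3) = sigmaFun x + 3 := by
  by_cases h1 : ∃ n : ℤ, x = 3 * n
  · obtain ⟨n, rfl⟩ := h1
    have : (3 * n + 3 : ℚ) = 3 * ((n + 1 : ℤ) : ℚ) := by push_cast; ring
    rw [this, sigma_zero, sigma_zero]
    push_cast
    ring
  · by_cases h2 : ∃ n : ℤ, x = 3 * n + 1
    · obtain ⟨n, rfl⟩ := h2
      have : (3 * n + 1 + 3 : ℚ) = 3 * ((n + 1 : ℤ) : ℚ) + 1 := by push_cast; ring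
      rw [this, sigma_one, sigma_one]
      push_cast
      ring
    · rw [sigma_other h1 h2, sigma_other]
      · rintro ⟨n, hn⟩
        exact h1 ⟨n - 1, by push_cast; linarith⟩
      · rintro ⟨n, hn⟩
        exact h2 ⟨n - 1, by push_cast; linarith⟩

/-- the permutation interchanging `3ℤ` and `3ℤ + 1` -/
noncomputable def sigma : Equiv.Perm ℚ := ⟨sigmaFun, sigmaFun, sigma_sigma, sigma_sigma⟩

/-- the multiplication by `2 / 3` -/
noncomputable def scaleQ : Equiv.Perm ℚ :=
  ⟨fun x => 2 / 3 * x, fun x => 3 / 2 * x, fun x => by ring, fun x => by ring⟩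

/-- the permutation `w` -/
noncomputable def wQ : Equiv.Perm ℚ := scaleQ * sigma

lemma rel_Q : Rel tQ wQ (wQ⁻¹ * tQ * wQ) := by
  refine ⟨?_, by group, ?_⟩
  · ext x
    change 2 / 3 * sigmaFun x + 1 + 1 = 2 / 3 * sigmaFun (x + 1 + 1 + 1)
    have : x + 1 + 1 + 1 = x + 3 := by ring
    rw [this, sigma_add]
    ring
  · intro h
    have h1 := congrArg (fun f : Equiv.Perm ℚ => f 0) h
    have e1 : (tQ * (wQ⁻¹ * tQ * wQ)) 0 = sigmaFun (3 / 2 * (2 / 3 * sigmaFun 0 + 1)) + 1 := rfl
    have e2 : ((wQ⁻¹ * tQ * wQ) * tQ) 0 = sigmaFun (3 / 2 * (2 / 3 * sigmaFun (0 + 1) + 1)) := rfl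
    have s0 : sigmaFun 0 = 1 := by have := sigma_zero 0; simpa using this
    have s1 : sigmaFun (0 + 1) = 0 := by have := sigma_one 0; simpa using this
    have a1 : sigmaFun (5 / 2) = 5 / 2 := by
      apply sigma_other
      · rintro ⟨n, hn⟩
        have : (5 : ℚ) = ((6 * n : ℤ) : ℚ) := by push_cast; linarith
        have h2 : (5 : ℤ) = 6 * n := by exact_mod_cast this
        omega
      · rintro ⟨n, hn⟩
        have : (5 : ℚ) = ((6 * n + 2 : ℤ) : ℚ) := by push_cast; linarith
        have h2 : (5 : ℤ) = 6 * n + 2 := by exact_mod_cast this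
        omega
    have a2 : sigmaFun (3 / 2) = 3 / 2 := by
      apply sigma_other
      · rintro ⟨n, hn⟩
        have : (3 : ℚ) = ((6 * n : ℤ) : ℚ) := by push_cast; linarith
        have h2 : (3 : ℤ) = 6 * n := by exact_mod_cast this
        omega
      · rintro ⟨n, hn⟩
        have : (3 : ℚ) = ((6 * n + 2 : ℤ) : ℚ) := by push_cast; linarith
        have h2 : (3 : ℤ) = 6 * n + 2 := by exact_mod_cast this
        omega
    change (tQ * (wQ⁻¹ * tQ * wQ)) 0 = ((wQ⁻¹ * tQ * wQ) * tQ) 0 at h1
    rw [e1, e2, s0, s1] at h1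
    have c1 : (3 / 2 * (2 / 3 * 1 + 1) : ℚ) = 5 / 2 := by norm_num
    have c2 : (3 / 2 * (2 / 3 * 0 + 1) : ℚ) = 3 / 2 := by norm_num
    rw [c1, c2, a1, a2] at h1
    norm_num at h1

/-- there is a countable group with the relations -/
lemma exists_countable : ∃ (K : Type) (_ : Group K), Countable K ∧ ∃ t w u : K, Rel t w u := by
  let f : FreeGroup (Fin 2) →* Equiv.Perm ℚ := FreeGroup.lift ![tQ, wQ]
  have hf : Function.Surjective f.rangeRestrict := f.rangeRestrict_surjective
  have hc : Countable (FreeGroup (Fin 2)) := inferInstanceAs (Countable (Quot _))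
  refine ⟨f.range, inferInstance, hf.countable, ?_⟩
  have ht : tQ ∈ f.range := ⟨FreeGroup.of 0, by simp [f]⟩
  have hw : wQ ∈ f.range := ⟨FreeGroup.of 1, by simp [f]⟩
  have hu : wQ⁻¹ * tQ * wQ ∈ f.range :=
    f.range.mul_mem (f.range.mul_mem (f.range.inv_mem hw) ht) hw
  refine ⟨⟨tQ, ht⟩, ⟨wQ, hw⟩, ⟨_, hu⟩, ?_, ?_, ?_⟩
  · exact Subtype.ext rel_Q.1
  · exact Subtype.ext rel_Q.2.1
  · intro h
    exact rel_Q.2.2 (congrArg Subtype.val h)

end example_group

/-! ### The space of group operations -/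

/-- `m` is the multiplication of a group with the underlying set `ℕ` -/
def IsGroupOp (m : ℕ × ℕ → ℕ) : Prop :=
  (∀ a b c, m (m (a, b), c) = m (a, m (b, c))) ∧
    ∃ e, (∀ a, m (e, a) = a ∧ m (a, e) = a) ∧ ∀ a, ∃ b, m (a, b) = e ∧ m (b, a) = e

/-- The space `𝒢` of all group operations on `ℕ`. -/
def GroupOps : Type := {m : ℕ × ℕ → ℕ // IsGroupOp m}

/-- the topology inherited from the product space `ℕ ^ (ℕ × ℕ)`, where `ℕ` is discrete -/
instance : TopologicalSpace GroupOps := instTopologicalSpaceSubtype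

/-- The set `ℕ` as the underlying set of the group with the multiplication `m`. -/
def Carrier (_m : GroupOps) : Type := ℕ

noncomputable instance (m : GroupOps) : Group (Carrier m) where
  mul a b := m.1 (a, b)
  one := m.2.2.choose
  inv a := (m.2.2.choose_spec.2 a).choose
  mul_assoc a b c := m.2.1 a b c
  one_mul a := (m.2.2.choose_spec.1 a).1
  mul_one a := (m.2.2.choose_spec.1 a).2
  inv_mul_cancel a := (m.2.2.choose_spec.2 a).choose_spec.2

lemma eventually_eq (x : GroupOps) (p : ℕ × ℕ) : ∀ᶠ y : GroupOps in nhds x, y.1 p = x.1 p := by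
  have h1 : Continuous fun y : GroupOps => y.1 p := (continuous_apply p).comp continuous_subtype_val
  exact h1.continuousAt.eventually (eventually_nhds_discrete x p)
where
  eventually_nhds_discrete (x : GroupOps) (p : ℕ × ℕ) : ∀ᶠ n in nhds (x.1 p), n = x.1 p := by
    rw [nhds_discrete]
    exact Filter.eventually_pure.2 rfl

/-- a natural number as an element of the group -/
def toC (m : GroupOps) (n : ℕ) : Carrier m := n

/-- the groups in which the condition of richness holds for `s` -/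
def U (s : Finset ℕ) : Set GroupOps :=
  {m | ∃ t w u : Carrier m, (∀ g ∈ s, t * toC m g = toC m g * t ∧ w * toC m g = toC m g * w) ∧
    Rel t w u}

lemma isOpen_U (s : Finset ℕ) : IsOpen (U s) := by
  rw [isOpen_iff_mem_nhds]
  rintro x ⟨t, w, u, h1, h2, h3, h4⟩
  have hs : ∀ᶠ y : GroupOps in nhds x, ∀ g ∈ s, y.1 (t, g) = x.1 (t, g) ∧ y.1 (g, t) = x.1 (g, t) ∧
      y.1 (w, g) = x.1 (w, g) ∧ y.1 (g, w) = x.1 (g, w) := by
    rw [Filter.eventually_all_finset]
    intro g _
    filter_upwards [eventually_eq x (t, g), eventually_eq x (g, t), eventually_eq x (w, g),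
      eventually_eq x (g, w)] with y a b c d
    exact ⟨a, b, c, d⟩
  filter_upwards [hs, eventually_eq x (t, w), eventually_eq x (t, x.1 (t, w)),
    eventually_eq x (t, t), eventually_eq x (t, x.1 (t, t)),
    eventually_eq x (w, x.1 (t, x.1 (t, t))), eventually_eq x (w, u), eventually_eq x (t, u),
    eventually_eq x (u, t)] with y hy e1 e2 e3 e4 e5 e6 e7 e8
  refine ⟨t, w, u, ?_, ?_, ?_, ?_⟩
  · intro g hg
    obtain ⟨a, b, c, d⟩ := hy g hg
    constructor
    · change y.1 (t, g) = y.1 (g, t)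
      rw [a, b]
      exact (h1 g hg).1
    · change y.1 (w, g) = y.1 (g, w)
      rw [c, d]
      exact (h1 g hg).2
  · change y.1 (t, y.1 (t, w)) = y.1 (w, y.1 (t, y.1 (t, t)))
    rw [e1, e2, e3, e4, e5]
    exact h2
  · change y.1 (w, u) = y.1 (t, w)
    rw [e6, e1]
    exact h3
  · change y.1 (t, u) ≠ y.1 (u, t)
    rw [e7, e8]
    exact h4

/-- extending a finite partial bijection -/
lemma exists_equiv {X Y : Type} (e₀ : X ≃ Y) (f : X → Y) (hf : Function.Injective f)
    (s : Finset X) : ∃ e : X ≃ Y, ∀ x ∈ s, e x = f x := by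
  classical
  induction s using Finset.induction_on with
  | empty => exact ⟨e₀, fun x hx => absurd hx (Finset.notMem_empty x)⟩
  | insert a s ha ih =>
    obtain ⟨e, he⟩ := ih
    refine ⟨e.trans (Equiv.swap (e a) (f a)), fun x hx => ?_⟩
    rw [Finset.mem_insert] at hx
    rw [Equiv.trans_apply]
    rcases hx with rfl | hx
    · rw [Equiv.swap_apply_left]
    · have hxa : x ≠ a := fun h => ha (h ▸ hx)
      rw [he x hx]
      refine Equiv.swap_apply_of_ne_of_ne ?_ (fun h => hxa (hf h))
      rw [← he x hx]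
      exact fun h => hxa (e.injective h)

lemma dense_U (s : Finset ℕ) : Dense (U s) := by
  intro x
  rw [mem_closure_iff_nhds]
  intro V hV
  -- a basic neighbourhood
  obtain ⟨F, hF⟩ : ∃ F : Finset (ℕ × ℕ), ∀ y : GroupOps, (∀ p ∈ F, y.1 p = x.1 p) → y ∈ V := by
    obtain ⟨W, hW, hWV⟩ := mem_nhds_subtype _ _ _ |>.1 hV
    rw [nhds_pi, Filter.mem_pi] at hW
    obtain ⟨I, hI, T, hT, hTW⟩ := hW
    refine ⟨hI.toFinset, fun y hy => hWV (hTW ?_)⟩
    intro p hp
    rw [hy p (hI.mem_toFinset.2 hp)]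
    exact mem_of_mem_nhds (hT p)
  obtain ⟨K, hK, hcount, t, w, u, hrel⟩ := exists_countable
  have hinf : Infinite (ℕ × K) := Prod.infinite_of_left
  obtain ⟨e₀⟩ : Nonempty (ℕ ≃ ℕ × K) := nonempty_equiv_of_countable
  let S : Finset ℕ := s ∪ F.image (fun p => p.1) ∪ F.image (fun p => p.2) ∪ F.image x.1
  obtain ⟨e, he⟩ := exists_equiv e₀ (fun n => (n, (1 : K))) (fun a b h => (Prod.mk.inj h).1) S
  -- the group
  let e' : ℕ ≃ Carrier x × K := e
  let y : GroupOps := ⟨fun p => e'.symm (e' p.1 * e' p.2), fun a b c => by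
      simp only [Equiv.apply_symm_apply, mul_assoc], e'.symm 1, fun a => by
      simp only [Equiv.apply_symm_apply, one_mul, mul_one, Equiv.symm_apply_apply, and_self],
      fun a => ⟨e'.symm (e' a)⁻¹, by
        constructor
        · change e'.symm (e' a * e' (e'.symm (e' a)⁻¹)) = _
          rw [Equiv.apply_symm_apply, mul_inv_cancel]
        · change e'.symm (e' (e'.symm (e' a)⁻¹) * e' a) = _
          rw [Equiv.apply_symm_apply, inv_mul_cancel]⟩⟩
  have hS : ∀ n ∈ S, e' n = (toC x n, (1 : K)) := he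
  let E : Carrier y ≃* Carrier x × K :=
    { toEquiv := (show Carrier y ≃ Carrier x × K from e')
      map_mul' := fun a b => e'.apply_symm_apply _ }
  have hE : ∀ n ∈ S, E (toC y n) = (toC x n, (1 : K)) := hS
  have hmem : ∀ p ∈ F, p.1 ∈ S ∧ p.2 ∈ S ∧ x.1 p ∈ S := by
    intro p hp
    simp only [S, Finset.mem_union, Finset.mem_image]
    exact ⟨Or.inl (Or.inl (Or.inr ⟨p, hp, rfl⟩)), Or.inl (Or.inr ⟨p, hp, rfl⟩),
      Or.inr ⟨p, hp, rfl⟩⟩
  refine ⟨y, hF y ?_, ?_⟩
  · intro p hp
    obtain ⟨h1, h2, h3⟩ := hmem p hp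
    change e'.symm (e' p.1 * e' p.2) = x.1 p
    rw [Equiv.symm_apply_eq, hS _ h1, hS _ h2, hS _ h3, Prod.mk_mul_mk, one_mul]
    rfl
  · refine ⟨E.symm (1, t), E.symm (1, w), E.symm (1, u), ?_, ?_, ?_, ?_⟩
    · intro g hg
      have hgS := hE g (by simp only [S, Finset.mem_union]; tauto)
      constructor
      · apply E.injective
        rw [map_mul, map_mul, hgS, MulEquiv.apply_symm_apply, Prod.mk_mul_mk, Prod.mk_mul_mk,
          one_mul, mul_one, one_mul, mul_one]
      · apply E.injective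
        rw [map_mul, map_mul, hgS, MulEquiv.apply_symm_apply, Prod.mk_mul_mk, Prod.mk_mul_mk,
          one_mul, mul_one, one_mul, mul_one]
    · apply E.injective
      simp only [map_mul, MulEquiv.apply_symm_apply, Prod.mk_mul_mk, mul_one]
      rw [hrel.1]
    · apply E.injective
      simp only [map_mul, MulEquiv.apply_symm_apply, Prod.mk_mul_mk, mul_one]
      rw [hrel.2.1]
    · intro h
      have h1 := congrArg E h
      simp only [map_mul, MulEquiv.apply_symm_apply, Prod.mk_mul_mk, mul_one] at h1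
      exact hrel.2.2 (Prod.mk.inj h1).2

/-- **Main result.** The set of all group operations on `ℕ` for which the rational group algebra is
semiprimitive is comeager in the space of all group operations on `ℕ`. -/
theorem result :
    {m : GroupOps | Ring.jacobson (MonoidAlgebra ℚ (Carrier m)) = ⊥} ∈ residual GroupOps := by
  have h1 : (⋂ s : Finset ℕ, U s) ∈ residual GroupOps :=
    countable_iInter_mem.2 fun s => residual_of_dense_open (isOpen_U s) (dense_U s)
  refine Filter.mem_of_superset h1 fun m hm => ?_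
  apply semiprimitive_of_rich
  intro s
  have h2 := Set.mem_iInter.1 hm s
  exact h2

end Pool.Agent.Results.MP_146d92_al.Generic
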